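import Pool.Agent.Run7.h146.Met.I2

/-!
# Piece MAIN1 of project MP_dd21b1_pr: dimension one

`t_MAIN1` deduces the lower bound in dimension one from the two one-dimensional pieces D1A, D1B and
the fact that almost surely no two points of the process (equal or not) have opposite positions.
-/

set_option autoImplicit false

open MeasureTheory Filter Topology ENNReal Run7.h146.Met

namespace Run7.h933.Met

/-- The indicator that the positions of two meteors on the line are opposite. -/
noncomputable def opp (x y : X 1) : ℝ≥0∞ := Set.indicator {p : X 1 × X 1 | p.1.1 0 + p.2.1 0 = 0} 1 (x, y)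

theorem opp_measurableSet : MeasurableSet {p : X 1 × X 1 | p.1.1 0 + p.2.1 0 = 0} := by
  have h : Measurable fun p : X 1 × X 1 => p.1.1 0 + p.2.1 0 := by fun_prop
  exact h (measurableSet_singleton (0 : ℝ))

theorem opp_measurable : Measurable fun p : X 1 × X 1 => opp p.1 p.2 :=
  measurable_one.indicator opp_measurableSet

theorem opp_eq_zero {x y : X 1} : opp x y = 0 ↔ x.1 0 + y.1 0 ≠ 0 := by
  unfold opp
  by_cases h : x.1 0 + y.1 0 = 0
  · rw [Set.indicator_of_mem (by exact h)]
    simp [h]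
  · rw [Set.indicator_of_notMem (by exact h)]
    simp [h]

/-- Fixing the coordinate of the position gives a null set. -/
theorem mB_coord (hMB : S_MB) (B : Set (V 1)) (c : ℝ) : mB B {z : X 1 | z.1 0 = c} = 0 := by
  have : IsProbabilityMeasure (sig 1) := (hMB 1 one_pos).1
  have h1 : {z : X 1 | z.1 0 = c} = {x : V 1 | x 0 = c} ×ˢ Set.univ := by
    ext z; simp
  have h2 : (volume : Measure (V 1)) {x : V 1 | x 0 = c} = 0 := by
    refine Set.Subsingleton.measure_zero ?_ _
    intro x hx y hy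
    ext i
    have hi : i = 0 := Subsingleton.elim _ _
    subst hi
    exact hx.trans hy.symm
  rw [h1, mB, Measure.prod_prod]
  have h3 : (volume.restrict B) {x : V 1 | x 0 = c} = 0 :=
    le_antisymm ((Measure.restrict_apply_le _ _).trans h2.le) bot_le
  rw [h3, zero_mul]

theorem lint_opp (hMB : S_MB) (B : Set (V 1)) (x : X 1) : ∫⁻ y, opp x y ∂(mB B) = 0 := by
  have h : (fun y => opp x y) = Set.indicator {y : X 1 | y.1 0 = -x.1 0} 1 := by
    ext y
    unfold opp
    by_cases h : x.1 0 + y.1 0 = 0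
    · rw [Set.indicator_of_mem (by exact h), Set.indicator_of_mem]
      · rfl
      · show y.1 0 = -x.1 0
        linarith
    · rw [Set.indicator_of_notMem (by exact h), Set.indicator_of_notMem]
      show ¬ (y.1 0 = -x.1 0)
      intro h'
      exact h (by linarith)
  have hm : MeasurableSet {y : X 1 | y.1 0 = -x.1 0} := by
    have h : Measurable fun y : X 1 => y.1 0 := by fun_prop
    exact h (measurableSet_singleton _)
  rw [h, lintegral_indicator_one hm]
  exact mB_coord hMB B _

theorem lint_opp_self (hMB : S_MB) (B : Set (V 1)) : ∫⁻ x, opp x x ∂(mB B) = 0 := by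
  have h : (fun y => opp y y) = Set.indicator {y : X 1 | y.1 0 = 0} 1 := by
    ext y
    unfold opp
    by_cases h : y.1 0 + y.1 0 = 0
    · rw [Set.indicator_of_mem (by exact h), Set.indicator_of_mem]
      · rfl
      · show y.1 0 = 0
        linarith
    · rw [Set.indicator_of_notMem (by exact h), Set.indicator_of_notMem]
      show ¬ (y.1 0 = 0)
      intro h'
      exact h (by linarith)
  have hm : MeasurableSet {y : X 1 | y.1 0 = 0} := by
    have h : Measurable fun y : X 1 => y.1 0 := by fun_prop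
    exact h (measurableSet_singleton _)
  rw [h, lintegral_indicator_one hm]
  exact mB_coord hMB B _

open Classical in
theorem sum_ins_le {α : Type*} (x : α) (F : Finset α) (f : α → ℝ≥0∞) :
    ∑ y ∈ ins x F, f y ≤ f x + ∑ y ∈ F, f y := by
  unfold ins
  by_cases hx : x ∈ F
  · rw [Finset.insert_eq_of_mem hx]
    exact le_add_self
  · rw [Finset.sum_insert hx]

/-- Almost surely no two points of the process (equal or not) have opposite positions. -/
theorem ae_opp (hPO1 : S_PO1) (hPO3 : S_PO3) (hMK : S_MK) (hMB : S_MB) (B : Set (V 1))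
    (hB : MeasurableSet B) (hB' : volume B ≠ ⊤) :
    ∀ᵐ F ∂(poi (mB B)), ∀ z ∈ F, ∀ y ∈ F, z.1 0 + y.1 0 ≠ 0 := by
  obtain ⟨hfin, hns, -, -⟩ := (hMB 1 one_pos).2.2.2 B hB hB'
  have := hfin
  have := hns
  have : IsProbabilityMeasure (poi (mB B)) := (hPO1 1 (mB B)).1
  -- the functional `x F ↦ ∑ y ∈ F, opp x y`
  have hT1 : TM (fun (p : X 1 × X 1) (_ : Finset (X 1)) => opp p.1 p.2) := by
    intro n
    exact opp_measurable.comp measurable_fst
  have hT2 : TM (fun (x : X 1) F => ∑ y ∈ F, opp x y) := hPO3 1 (X 1) _ hT1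
  have hT2' : TM (fun (p : Unit × X 1) F => ∑ y ∈ F, opp p.2 y) := by
    intro n
    exact (hT2 n).comp ((measurable_snd.comp measurable_fst).prodMk measurable_snd)
  have hT3 : TM (fun (_ : Unit) F => ∑ x ∈ F, ∑ y ∈ F, opp x y) := hPO3 1 Unit _ hT2'
  have hmeas : Measurable fun F : Finset (X 1) => ∑ x ∈ F, ∑ y ∈ F, opp x y :=
    (hPO1 1 (mB B)).2.2.1 Unit _ hT3 ()
  have hint : ∫⁻ F, ∑ x ∈ F, ∑ y ∈ F, opp x y ∂(poi (mB B)) = 0 := by
    rw [(hMK 1 (mB B)).1 (fun x F => ∑ y ∈ F, opp x y) hT2]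
    have hle : ∀ (x : X 1) (F : Finset (X 1)), ∑ y ∈ ins x F, opp x y ≤
        opp x x + ∑ y ∈ F, opp x y := by
      intro x F
      exact sum_ins_le x F (opp x)
    have hin : ∀ x : X 1, ∫⁻ F, ∑ y ∈ ins x F, opp x y ∂(poi (mB B)) ≤ opp x x := by
      intro x
      refine (lintegral_mono (hle x)).trans ?_
      rw [lintegral_add_left measurable_const, lintegral_const, measure_univ, mul_one]
      have hTx : TM (fun (y : X 1) (_ : Finset (X 1)) => opp x y) := by
        intro n
        exact (opp_measurable.comp (measurable_const.prodMk measurable_id)).comp measurable_fst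
      rw [(hMK 1 (mB B)).1 (fun y _ => opp x y) hTx]
      simp only [lintegral_const, measure_univ, mul_one]
      rw [lint_opp hMB B x, add_zero]
    exact le_antisymm ((lintegral_mono hin).trans (lint_opp_self hMB B).le) bot_le
  rw [lintegral_eq_zero_iff hmeas] at hint
  filter_upwards [hint] with F hF z hz y hy
  have h1 : ∑ x ∈ F, ∑ y ∈ F, opp x y = 0 := hF
  rw [Finset.sum_eq_zero_iff] at h1
  have h2 := h1 z hz
  rw [Finset.sum_eq_zero_iff] at h2
  exact opp_eq_zero.1 (h2 y hy)

theorem t_MAIN1 : S_PO1 → S_PO2 → S_PO3 → S_MK → S_MB → S_NTP → S_MEAS → S_D1A → S_D1B →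
    S_MAIN1 := by
  intro hPO1 _ hPO3 hMK hMB hNTP _ hD1A hD1B ε hε
  refine ⟨1 / 32, by norm_num, fun R m A hA => ?_⟩
  obtain ⟨L, hL, hD⟩ := hD1B ε hε R m A hA
  refine ⟨L, 2 * L + R + 4 * ε, fun Q hQ => ?_⟩
  rw [mul_comm]
  refine (hD Q hQ).trans (measure_mono_ae ?_)
  have hB : MeasurableSet (Metric.ball (0 : V 1) Q) := measurableSet_ball
  have hB' : volume (Metric.ball (0 : V 1) Q) ≠ ⊤ := measure_ball_lt_top.ne
  have hopp := ae_opp hPO1 hPO3 hMK hMB (Metric.ball (0 : V 1) Q) hB hB'
  have hunit : ∀ᵐ F ∂(poi (mB (Metric.ball (0 : V 1) Q))), ¬ ∃ z ∈ F, ‖z.2‖ ≠ 1 := by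
    rw [ae_iff]
    simpa using ((hMB 1 one_pos).2.2.2 _ hB hB').2.2.2
  have hnt : ∀ᵐ F ∂(poi (mB (Metric.ball (0 : V 1) Q))), NT ε F := by
    rw [ae_iff]
    exact (hNTP 1 ε one_pos hε _ hB hB').1
  show _ ≤ᵐ[poi (mB (Metric.ball (0 : V 1) Q))] _
  filter_upwards [hopp, hunit, hnt] with F h1 h2 h3 hF
  obtain ⟨hA', hcard⟩ := hF
  refine ⟨hA', ?_⟩
  push Not at h2
  have h4 := hD1A ε hε F L hL h2 h3 h1
  exact Nat.le_of_add_le_add_left (hcard.trans h4)

end Run7.h933.Met
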